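import Pool.Agent.H94.AWDefs
import Pool.Agent.H94.AWProof

set_option autoImplicit false

namespace Pool.Agent.Results.MP_dba3a1_an.NotFull

open Pool.Agent.H94.AWDefs

/-- There are an AW*-algebra `A` and a morphism of Baer *-semigroups `P A → P A` which is not the
restriction of any (complex linear) *-homomorphism `A → A`. -/
theorem result : ∃ (A : Type) (_ : CStarAlgebra A), IsAW A ∧
    ∃ φ : A → A, IsBaerMorphism φ ∧ ¬ ∃ f : A →⋆ₙₐ[ℂ] A, ∀ x ∈ P A, f x = φ x :=
  Pool.Agent.H94.AWProof.main

end Pool.Agent.Results.MP_dba3a1_an.NotFull
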